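import Pool.Agent.R331.BA.Meas

set_option autoImplicit false

namespace Pool.Agent.Results.MP_ad5f6c_nt.CodimOne

open Pool.Agent.R331.BA

/-- There is a non-singular `2 × 1` real matrix `A` and a one-dimensional (hence codimension one)
algebraic measure `μ` on `T^2` with `μ(Bad_A) > 0`. -/
theorem result : ∃ A : Matrix (Fin 2) (Fin 1) ℝ, ¬ Singular A ∧
    ∃ C : Coset 2 1, 0 < C.haar (Bad A) := by
  refine ⟨col α₁ α₂, nonsingular, hor ((0:ℝ) : UnitAddCircle), ?_⟩
  have hd : Adm (fun _ => 0) := by
    intro k
    have := S_pos k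
    simp
    linarith
  have hx : ∀ m, |(0:ℝ) - P (fun _ => 0) m| ≤ 5 / S m := by
    intro m
    have := S_pos m
    simp [P]
    positivity
  have h := haar_lower ((0:ℝ) : UnitAddCircle) (Bad (col α₁ α₂)) (1/4) (3/4) (by norm_num)
    (by norm_num) (by
      intro u hu
      apply bad_of_far hd hx
      refine Filter.Eventually.of_forall fun i n => ?_
      have hT : T (fun _ => 0) i = 0 := by simp [T]
      rw [hT]
      rcases le_or_gt n 0 with hn | hn
      · have : (n:ℝ) ≤ 0 := by exact_mod_cast hn
        rw [le_abs]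
        left
        linarith [hu.1]
      · have : (1:ℝ) ≤ (n:ℝ) := by exact_mod_cast hn
        rw [le_abs]
        right
        linarith [hu.2])
  refine lt_of_lt_of_le ?_ h
  rw [ENNReal.ofReal_pos]
  norm_num

end Pool.Agent.Results.MP_ad5f6c_nt.CodimOne
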